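import Pool.Agent.Work.MP_e60d4a_nt.Count

/-!
# Chebyshev bounds for the set of values of `π (k ^ 2)`
-/

set_option autoImplicit false

namespace Pool.Agent.PiSq

open Finset Filter

theorem log_four_lt : Real.log 4 < 2 := by
  have h : (4 : ℝ) = 2 ^ 2 := by norm_num
  rw [h, Real.log_pow]
  have := Real.log_two_lt_d9
  push_cast
  linarith

theorem pi_lower : ∀ᶠ x : ℝ in atTop, x / (2 * Real.log x) ≤ Nat.primeCounting ⌊x⌋₊ := by
  have h1 : ∀ᶠ x : ℝ in atTop, ‖Real.log x‖ ≤ (1 / 20) * ‖x‖ :=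
    Real.isLittleO_log_id_atTop.bound (by norm_num)
  have h2 : ∀ᶠ x : ℝ in atTop, ‖Real.log (x + 2)‖ ≤ (1 / 20) * ‖x + 2‖ :=
    (tendsto_atTop_add_const_right atTop 2 tendsto_id).eventually h1
  filter_upwards [h2, eventually_ge_atTop (1000 : ℝ)] with x hx hx1
  have h3 := Chebyshev.pi_ge' (show (1 : ℝ) < x by linarith)
  refine le_trans ?_ h3
  have hl : 0 < Real.log x := Real.log_pos (by linarith)
  rw [Real.norm_of_nonneg (Real.log_nonneg (by linarith)), Real.norm_of_nonneg (by linarith)] at hx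
  have h4 := Real.log_two_gt_d9
  have h5 : x / (2 * Real.log x) = (x / 2) / Real.log x := by
    field_simp
  rw [h5]
  refine div_le_div_of_nonneg_right ?_ hl.le
  nlinarith

theorem pi_upper : ∀ᶠ x : ℝ in atTop, (Nat.primeCounting ⌊x⌋₊ : ℝ) ≤ 2 * x / Real.log x := by
  have h := Chebyshev.eventually_primeCounting_le (ε := 2 - Real.log 4)
    (by linarith [log_four_lt])
  filter_upwards [h] with x hx
  refine hx.trans (le_of_eq ?_)
  ring

theorem top_tendsto : Tendsto (fun N : ℕ => ((top N : ℕ) : ℝ)) atTop atTop := by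
  refine tendsto_natCast_atTop_atTop.comp ?_
  refine tendsto_atTop_mono' atTop ?_ tendsto_id
  filter_upwards [eventually_ge_atTop 1] with n hn
  exact n_le_top n hn

theorem card_V_lower : ∀ᶠ N : ℕ in atTop, (N : ℝ) / 16 ≤ ((V (top N)).card : ℝ) := by
  have hsq : Tendsto (fun N : ℕ => ((top N : ℕ) : ℝ) ^ 2) atTop atTop :=
    (tendsto_pow_atTop (by norm_num)).comp top_tendsto
  filter_upwards [hsq.eventually pi_lower, top_tendsto.eventually pi_upper,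
    top_tendsto.eventually (eventually_gt_atTop 1), eventually_ge_atTop 1] with N h1 h2 h3 h4
  obtain ⟨K, hK⟩ : ∃ K : ℕ, K = top N := ⟨_, rfl⟩
  rw [← hK] at h1 h2 h3 ⊢
  have hK1 : 1 ≤ K := by
    have : (1 : ℝ) < K := h3
    exact_mod_cast this.le
  have hKpos : (0 : ℝ) < K := by linarith
  have hl : 0 < Real.log K := Real.log_pos h3
  have h5 : ⌊(K : ℝ) ^ 2⌋₊ = K ^ 2 := by
    rw [← Nat.cast_pow, Nat.floor_natCast]
  rw [h5, Real.log_pow] at h1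
  rw [Nat.floor_natCast] at h2
  have h6 : (Nat.primeCounting (K ^ 2) : ℝ) ≤ 2 * K * (V K).card := by
    exact_mod_cast pi_sq_le K hK1
  have h7 : ((N : ℝ) + 1) ≤ 2 * K / Real.log K := by
    refine le_trans ?_ h2
    rw [hK]
    exact_mod_cast succ_le_pi_top h4
  have h8 : (K : ℝ) ^ 2 / (2 * ((2 : ℕ) * Real.log K)) = K * (K / Real.log K / 4) := by
    push_cast
    field_simp
    norm_num
  rw [h8] at h1
  have h9 : K * (K / Real.log K / 4) ≤ K * (2 * ((V K).card : ℝ)) := by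
    refine h1.trans (h6.trans (le_of_eq ?_))
    ring
  have h10 := le_of_mul_le_mul_left h9 hKpos
  have h11 : 2 * (K : ℝ) / Real.log K = 2 * (K / Real.log K) := by ring
  rw [h11] at h7
  linarith

theorem nth_le : ∀ᶠ N : ℕ in atTop, (Nat.nth Nat.Prime N : ℝ) ≤ (N : ℝ) ^ (5 / 4 : ℝ) := by
  have h0 : Tendsto (fun N : ℕ => (N : ℝ) ^ (5 / 4 : ℝ)) atTop atTop :=
    (tendsto_rpow_atTop (by norm_num)).comp tendsto_natCast_atTop_atTop
  have h1 : ∀ᶠ x : ℝ in atTop, ‖Real.log x‖ ≤ (1 / 5) * ‖x ^ (1 / 4 : ℝ)‖ :=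
    (isLittleO_log_rpow_atTop (by norm_num)).bound (by norm_num)
  have h2 := tendsto_natCast_atTop_atTop (R := ℝ) |>.eventually h1
  filter_upwards [h0.eventually pi_lower, h2, eventually_ge_atTop 2] with N h3 h4 h5
  have hN : (2 : ℝ) ≤ N := by exact_mod_cast h5
  have hN0 : (0 : ℝ) < N := by linarith
  have hl : 0 < Real.log N := Real.log_pos (by linarith)
  have hr : 0 < (N : ℝ) ^ (1 / 4 : ℝ) := Real.rpow_pos_of_pos hN0 _
  rw [Real.norm_of_nonneg hl.le, Real.norm_of_nonneg hr.le] at h4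
  rw [Real.log_rpow hN0] at h3
  have h6 : (N : ℝ) ^ (5 / 4 : ℝ) = N * (N : ℝ) ^ (1 / 4 : ℝ) := by
    rw [show (5 / 4 : ℝ) = 1 + 1 / 4 by norm_num, Real.rpow_add hN0, Real.rpow_one]
  have h7 : (N : ℝ) + 1 ≤ (N : ℝ) ^ (5 / 4 : ℝ) / (2 * (5 / 4 * Real.log N)) := by
    rw [le_div_iff₀ (by positivity), h6]
    nlinarith
  have h8 : N + 1 ≤ Nat.primeCounting ⌊(N : ℝ) ^ (5 / 4 : ℝ)⌋₊ := by
    exact_mod_cast h7.trans h3
  have h9 := nth_le_of_pi h8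
  calc (Nat.nth Nat.Prime N : ℝ) ≤ (⌊(N : ℝ) ^ (5 / 4 : ℝ)⌋₊ : ℝ) := by exact_mod_cast h9
    _ ≤ (N : ℝ) ^ (5 / 4 : ℝ) := Nat.floor_le (Real.rpow_nonneg hN0.le _)

theorem top_sq_lt : ∀ᶠ N : ℕ in atTop, top N ^ 2 < N ^ 3 := by
  filter_upwards [nth_le, eventually_gt_atTop 16] with N h1 h2
  have hN : (16 : ℝ) < N := by exact_mod_cast h2
  have hN0 : (0 : ℝ) < N := by linarith
  have h3 : (top N : ℝ) ≤ 2 * (N : ℝ) ^ (5 / 4 : ℝ) := by
    have : top N ≤ 2 * Nat.nth Nat.Prime N := Nat.sub_le _ _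
    have h4 : (top N : ℝ) ≤ 2 * (Nat.nth Nat.Prime N : ℝ) := by exact_mod_cast this
    linarith
  have h4 : (top N : ℝ) ^ 2 ≤ 4 * ((N : ℝ) ^ 2 * (N : ℝ) ^ (1 / 2 : ℝ)) := by
    calc (top N : ℝ) ^ 2 ≤ (2 * (N : ℝ) ^ (5 / 4 : ℝ)) ^ 2 :=
          pow_le_pow_left₀ (Nat.cast_nonneg _) h3 2
      _ = 4 * ((N : ℝ) ^ 2 * (N : ℝ) ^ (1 / 2 : ℝ)) := by
          rw [mul_pow, ← Real.rpow_natCast ((N : ℝ) ^ (5 / 4 : ℝ)) 2, ← Real.rpow_mul hN0.le,
            ← Real.rpow_natCast (N : ℝ) 2, ← Real.rpow_add hN0]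
          norm_num
  have h5 : 4 < (N : ℝ) ^ (1 / 2 : ℝ) := by
    have h6 : (16 : ℝ) ^ (1 / 2 : ℝ) < (N : ℝ) ^ (1 / 2 : ℝ) :=
      Real.rpow_lt_rpow (by norm_num) hN (by norm_num)
    have h7 : (16 : ℝ) ^ (1 / 2 : ℝ) = 4 := by
      rw [show (16 : ℝ) = 4 ^ (2 : ℝ) by norm_num, ← Real.rpow_mul (by norm_num)]
      norm_num
    rwa [h7] at h6
  have h6 : (N : ℝ) ^ (1 / 2 : ℝ) * (N : ℝ) ^ (1 / 2 : ℝ) = N := by
    rw [← Real.rpow_add hN0]
    norm_num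
  have h7 : (top N : ℝ) ^ 2 < (N : ℝ) ^ 3 := by
    refine h4.trans_lt ?_
    have h8 : 4 * (N : ℝ) ^ (1 / 2 : ℝ) < N := by nlinarith
    have h9 : (N : ℝ) ^ 3 = (N : ℝ) ^ 2 * N := by ring
    rw [h9, show 4 * ((N : ℝ) ^ 2 * (N : ℝ) ^ (1 / 2 : ℝ))
      = (N : ℝ) ^ 2 * (4 * (N : ℝ) ^ (1 / 2 : ℝ)) by ring]
    exact mul_lt_mul_of_pos_left h8 (by positivity)
  exact_mod_cast h7

end Pool.Agent.PiSq
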