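import Mathlib

/-!
# Residue classes met by a set of integers for almost all moduli
-/

set_option autoImplicit false

namespace Pool.Agent.PiSq

open Finset

/-- the number of residue classes modulo `n` met by `V` -/
def cls (V : Finset ℕ) (n : ℕ) : ℕ := (V.image (fun v => v % n)).card

theorem cls_mono {V W : Finset ℕ} (h : V ⊆ W) (n : ℕ) : cls V n ≤ cls W n :=
  card_le_card (image_subset_image h)

/-- pairs congruent modulo `n` -/
def pr (V : Finset ℕ) (n : ℕ) : Finset (ℕ × ℕ) := (V ×ˢ V).filter (fun x => x.1 % n = x.2 % n)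

theorem cauchy (V : Finset ℕ) (n : ℕ) : V.card ^ 2 ≤ cls V n * (pr V n).card := by
  have h1 : V.card = ∑ r ∈ V.image (fun v => v % n), (V.filter (fun v => v % n = r)).card :=
    card_eq_sum_card_image _ _
  have h2 : (pr V n).card =
      ∑ r ∈ V.image (fun v => v % n), (V.filter (fun v => v % n = r)).card ^ 2 := by
    rw [card_eq_sum_card_fiberwise (f := fun x : ℕ × ℕ => x.1 % n)
      (t := V.image (fun v => v % n))]
    · refine sum_congr rfl fun r _ => ?_
      rw [sq, ← card_product]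
      congr 1
      ext ⟨a, b⟩
      simp only [pr, mem_filter, mem_product]
      constructor
      · rintro ⟨⟨⟨h1, h2⟩, h3⟩, h4⟩
        exact ⟨⟨h1, h4⟩, ⟨h2, by rw [← h3, h4]⟩⟩
      · rintro ⟨⟨h1, h4⟩, ⟨h2, h3⟩⟩
        exact ⟨⟨⟨h1, h2⟩, by rw [h4, h3]⟩, h4⟩
    · intro x hx
      have hx' := (mem_filter.1 hx).1
      exact mem_image_of_mem _ (mem_product.1 hx').1
  rw [h2, h1]
  exact sq_sum_le_card_mul_sum_sq

/-- off-diagonal pairs congruent modulo `n` -/
def od (V : Finset ℕ) (n : ℕ) : Finset (ℕ × ℕ) := V.offDiag.filter (fun x => x.1 % n = x.2 % n)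

theorem card_pr_le (V : Finset ℕ) (n : ℕ) : (pr V n).card ≤ V.card + (od V n).card := by
  have h : pr V n ⊆ V.diag ∪ od V n := by
    intro x hx
    obtain ⟨h1, h2⟩ := mem_filter.1 hx
    obtain ⟨h3, h4⟩ := mem_product.1 h1
    by_cases h5 : x.1 = x.2
    · exact mem_union_left _ (mem_diag.2 ⟨h3, h5⟩)
    · exact mem_union_right _ (mem_filter.2 ⟨mem_offDiag.2 ⟨h3, h4, h5⟩, h2⟩)
  refine (card_le_card h).trans ((card_union_le _ _).trans ?_)
  rw [diag_card]

theorem dvd_of_mod_eq {a b n : ℕ} (h : a % n = b % n) : n ∣ max a b - min a b := by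
  rcases le_total a b with h1 | h1
  · rw [max_eq_right h1, min_eq_left h1]
    exact (Nat.modEq_iff_dvd' h1).1 h
  · rw [max_eq_left h1, min_eq_right h1]
    exact (Nat.modEq_iff_dvd' h1).1 h.symm

theorem sum_od_le (V S : Finset ℕ) (M T : ℕ) (hV : ∀ v ∈ V, v ≤ M)
    (hT : ∀ m, 0 < m → m ≤ M → (S.filter (fun n => n ∣ m)).card ≤ T) :
    ∑ n ∈ S, (od V n).card ≤ V.card ^ 2 * T := by
  have h1 : ∀ n ∈ S, (od V n).card = ∑ x ∈ V.offDiag, if x.1 % n = x.2 % n then 1 else 0 := by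
    intro n _
    rw [od, card_filter]
  rw [sum_congr rfl h1, sum_comm]
  have h2 : ∀ x ∈ V.offDiag, (∑ n ∈ S, if x.1 % n = x.2 % n then 1 else 0) ≤ T := by
    intro x hx
    obtain ⟨h3, h4, h5⟩ := mem_offDiag.1 hx
    rw [← card_filter]
    refine le_trans (card_le_card ?_) (hT (max x.1 x.2 - min x.1 x.2) ?_ ?_)
    · intro n hn
      obtain ⟨h6, h7⟩ := mem_filter.1 hn
      exact mem_filter.2 ⟨h6, dvd_of_mod_eq h7⟩
    · rcases Nat.lt_or_ge x.1 x.2 with h | h
      · rw [max_eq_right h.le, min_eq_left h.le]; omega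
      · rw [max_eq_left h, min_eq_right h]; omega
    · exact (Nat.sub_le _ _).trans (max_le (hV _ h3) (hV _ h4))
  refine (sum_le_card_nsmul _ _ _ h2).trans ?_
  rw [smul_eq_mul]
  refine Nat.mul_le_mul_right _ ?_
  rw [offDiag_card, sq]
  exact Nat.sub_le _ _

/-- Few moduli `n` of `S` have less than `ρ` residue classes met by `V`. -/
theorem bad_card (V S : Finset ℕ) (M T : ℕ) (hV : ∀ v ∈ V, v ≤ M)
    (hT : ∀ m, 0 < m → m ≤ M → (S.filter (fun n => n ∣ m)).card ≤ T) {ρ : ℝ} (hρ : 0 < ρ)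
    (h2 : 2 * ρ ≤ V.card) :
    ((S.filter (fun n => (cls V n : ℝ) < ρ)).card : ℝ) ≤ 2 * ρ * T := by
  set B := S.filter (fun n => (cls V n : ℝ) < ρ) with hB
  obtain ⟨D, hD⟩ : ∃ D : ℝ, D = ((V.card : ℕ) : ℝ) := ⟨_, rfl⟩
  rw [← hD] at h2
  have hDpos : 0 < D := by linarith
  have h3 : ∀ n ∈ B, D ^ 2 / (2 * ρ) ≤ ((od V n).card : ℝ) := by
    intro n hn
    have h4 : (cls V n : ℝ) < ρ := (mem_filter.1 hn).2
    have h5 : D ^ 2 ≤ (cls V n : ℝ) * ((pr V n).card : ℝ) := by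
      rw [hD]
      exact_mod_cast cauchy V n
    have h6 : ((pr V n).card : ℝ) ≤ D + ((od V n).card : ℝ) := by
      rw [hD]
      exact_mod_cast card_pr_le V n
    have h7 : D ^ 2 ≤ ρ * (D + ((od V n).card : ℝ)) := by
      refine h5.trans ?_
      exact mul_le_mul h4.le h6 (Nat.cast_nonneg _) hρ.le
    rw [div_le_iff₀ (by positivity)]
    nlinarith
  have h4 : (B.card : ℝ) * (D ^ 2 / (2 * ρ)) ≤ D ^ 2 * T := by
    calc (B.card : ℝ) * (D ^ 2 / (2 * ρ)) = ∑ _n ∈ B, D ^ 2 / (2 * ρ) := by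
          rw [sum_const, nsmul_eq_mul]
      _ ≤ ∑ n ∈ B, ((od V n).card : ℝ) := sum_le_sum h3
      _ ≤ ∑ n ∈ S, ((od V n).card : ℝ) :=
          sum_le_sum_of_subset_of_nonneg (filter_subset _ _) (fun _ _ _ => Nat.cast_nonneg _)
      _ ≤ D ^ 2 * T := by
          rw [hD]
          exact_mod_cast sum_od_le V S M T hV hT
  have h5 : (B.card : ℝ) * (D ^ 2 / (2 * ρ)) = (B.card : ℝ) / (2 * ρ) * D ^ 2 := by
    field_simp
  rw [h5, mul_comm (D ^ 2)] at h4
  have h6 := le_of_mul_le_mul_right h4 (by positivity : 0 < D ^ 2)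
  rwa [div_le_iff₀ (by positivity), mul_comm] at h6

end Pool.Agent.PiSq
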