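import Pool.Agent.Work.MP_e60d4a_nt.Coll

/-!
# The number of values of `π (k ^ 2)`
-/

set_option autoImplicit false

namespace Pool.Agent.PiSq

open Finset

/-- the values `π (k ^ 2)` for `1 ≤ k ≤ K` -/
def V (K : ℕ) : Finset ℕ := (Icc 1 K).image (fun k => Nat.primeCounting (k ^ 2))

theorem V_mono {K L : ℕ} (h : K ≤ L) : V K ⊆ V L :=
  image_subset_image (Icc_subset_Icc le_rfl h)

theorem pi_add_le (a b : ℕ) : Nat.primeCounting (a + b) ≤ Nat.primeCounting a + b := by
  induction b with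
  | zero => simp
  | succ b ih =>
    have h : Nat.primeCounting (a + (b + 1)) ≤ Nat.primeCounting (a + b) + 1 := by
      unfold Nat.primeCounting Nat.primeCounting'
      rw [show a + (b + 1) + 1 = (a + b + 1) + 1 by ring, Nat.count_succ]
      split_ifs <;> omega
    omega

theorem pi_sq_le (K : ℕ) (hK : 1 ≤ K) : Nat.primeCounting (K ^ 2) ≤ 2 * K * (V K).card := by
  induction K, hK using Nat.le_induction with
  | base =>
    have : Nat.primeCounting (1 ^ 2) = 0 := by decide
    rw [this]; exact Nat.zero_le _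
  | succ K hK ih =>
    have h1 : Nat.primeCounting ((K + 1) ^ 2) ≤ Nat.primeCounting (K ^ 2) + (2 * K + 1) := by
      rw [show (K + 1) ^ 2 = K ^ 2 + (2 * K + 1) by ring]
      exact pi_add_le _ _
    by_cases h : Nat.primeCounting ((K + 1) ^ 2) ∈ V K
    · obtain ⟨j, hj, hj2⟩ := mem_image.1 h
      have hj3 : j ^ 2 ≤ K ^ 2 := Nat.pow_le_pow_left (mem_Icc.1 hj).2 2
      have h2 : Nat.primeCounting ((K + 1) ^ 2) ≤ Nat.primeCounting (K ^ 2) := by
        rw [← hj2]
        exact Nat.monotone_primeCounting hj3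
      have h3 : (V K).card ≤ (V (K + 1)).card := card_le_card (V_mono (Nat.le_succ K))
      calc Nat.primeCounting ((K + 1) ^ 2) ≤ 2 * K * (V K).card := h2.trans ih
        _ ≤ 2 * (K + 1) * (V (K + 1)).card :=
          Nat.mul_le_mul (Nat.mul_le_mul_left _ (Nat.le_succ K)) h3
    · have h2 : (V K).card + 1 ≤ (V (K + 1)).card := by
        have h3 : insert (Nat.primeCounting ((K + 1) ^ 2)) (V K) ⊆ V (K + 1) := by
          refine insert_subset ?_ (V_mono (Nat.le_succ K))
          exact mem_image_of_mem _ (mem_Icc.2 ⟨by omega, le_rfl⟩)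
        rw [← card_insert_of_notMem h]
        exact card_le_card h3
      calc Nat.primeCounting ((K + 1) ^ 2) ≤ 2 * K * (V K).card + (2 * K + 1) :=
            h1.trans (Nat.add_le_add_right ih _)
        _ ≤ 2 * (K + 1) * ((V K).card + 1) := by nlinarith
        _ ≤ 2 * (K + 1) * (V (K + 1)).card := Nat.mul_le_mul_left _ h2

theorem V_le {K v : ℕ} (hv : v ∈ V K) : v ≤ K ^ 2 := by
  obtain ⟨k, hk, rfl⟩ := mem_image.1 hv
  refine le_trans ?_ (Nat.pow_le_pow_left (mem_Icc.1 hk).2 2)
  have h := pi_add_le 0 (k ^ 2)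
  have h0 : Nat.primeCounting 0 = 0 := by decide
  rw [zero_add, h0, zero_add] at h
  exact h

/-- `2 p_{n+1} - 3` -/
noncomputable def top (n : ℕ) : ℕ := 2 * Nat.nth Nat.Prime n - 3

theorem top_mono {m n : ℕ} (h : m ≤ n) : top m ≤ top n := by
  unfold top
  have h1 : Nat.nth Nat.Prime m ≤ Nat.nth Nat.Prime n :=
    (Nat.nth_monotone Nat.infinite_setOfPred_prime) h
  omega

theorem two_le_nth (n : ℕ) : 2 ≤ Nat.nth Nat.Prime n := (Nat.prime_nth_prime n).two_le

theorem three_le_nth {n : ℕ} (hn : 1 ≤ n) : 3 ≤ Nat.nth Nat.Prime n := by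
  have h : Nat.nth Nat.Prime 0 < Nat.nth Nat.Prime n :=
    Nat.nth_strictMono Nat.infinite_setOfPred_prime (show 0 < n by omega)
  have := two_le_nth 0
  omega

theorem nth_le_top {n : ℕ} (hn : 1 ≤ n) : Nat.nth Nat.Prime n ≤ top n := by
  unfold top
  have := three_le_nth hn
  omega

theorem succ_le_pi_top {n : ℕ} (hn : 1 ≤ n) : n + 1 ≤ Nat.primeCounting (top n) := by
  have h1 : Nat.primeCounting (Nat.nth Nat.Prime n) = n + 1 := by
    unfold Nat.primeCounting Nat.primeCounting'
    rw [Nat.count_succ, Nat.count_nth_of_infinite Nat.infinite_setOfPred_prime,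
      if_pos (Nat.prime_nth_prime n)]
  rw [← h1]
  exact Nat.monotone_primeCounting (nth_le_top hn)

theorem nth_le_of_pi {n y : ℕ} (h : n + 1 ≤ Nat.primeCounting y) :
    Nat.nth Nat.Prime n ≤ y := by
  have h1 : n < Nat.count Nat.Prime (y + 1) := by
    have : Nat.primeCounting y = Nat.count Nat.Prime (y + 1) := rfl
    omega
  have := Nat.nth_lt_of_lt_count h1
  omega

theorem n_le_top (n : ℕ) (hn : 1 ≤ n) : n ≤ top n := by
  have h := succ_le_pi_top hn
  have h2 := pi_add_le 0 (top n)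
  have h0 : Nat.primeCounting 0 = 0 := by decide
  rw [zero_add, h0, zero_add] at h2
  omega

end Pool.Agent.PiSq
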