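import Mathlib

/-!
# The sets of the problem

`A n` is the set `A_n = {π (k ^ 2) : 1 ≤ k ≤ 2 p_{n+1} - 3}` and `R n` is the number of residue
classes modulo `n` that it meets; `A_n` contains a complete system of residues modulo `n` exactly
when `R n = n`.
-/

set_option autoImplicit false

namespace Pool.Agent.PiSq

open Finset

/-- the set `A_n` of the problem; `Nat.nth Nat.Prime n` is the `(n+1)`-st prime `p_{n+1}` -/
noncomputable def A (n : ℕ) : Finset ℕ :=
  (Icc 1 (2 * Nat.nth Nat.Prime n - 3)).image (fun k => Nat.primeCounting (k ^ 2))

/-- the number of residue classes modulo `n` met by `A n` -/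
noncomputable def R (n : ℕ) : ℕ := ((A n).image (fun a => a % n)).card

end Pool.Agent.PiSq
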