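import Mathlib

/-!
# Divisors with few prime factors, and the average of the number of divisors
-/

set_option autoImplicit false

namespace Pool.Agent.PiSq

open Finset

theorem two_pow_card_le {m : ℕ} (hm : 0 < m) : 2 ^ m.primeFactors.card ≤ m := by
  refine le_trans ?_ (Nat.le_of_dvd hm (Nat.prod_primeFactors_dvd m))
  rw [← prod_const]
  exact prod_le_prod' (fun p hp => (Nat.prime_of_mem_primeFactors hp).two_le)

/-- the divisors of `m` with at most `t` distinct prime factors -/
def Dv (m t : ℕ) : Finset ℕ := m.divisors.filter (fun n => n.primeFactors.card ≤ t)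

theorem Dv_card {m : ℕ} (hm : 0 < m) {L : ℕ} (hL : m < 2 ^ L) (t : ℕ) :
    (Dv m t).card ≤ ((L + 1) ^ 2) ^ t := by
  induction t with
  | zero =>
    have h : Dv m 0 ⊆ {1} := by
      intro n hn
      obtain ⟨h1, h2⟩ := mem_filter.1 hn
      have h3 : n ≠ 0 := (Nat.pos_of_mem_divisors h1).ne'
      have h4 : n.primeFactors = ∅ := card_eq_zero.1 (Nat.le_zero.1 h2)
      rw [Nat.primeFactors_eq_empty] at h4
      rcases h4 with h4 | h4
      · exact absurd h4 h3
      · rw [h4]; exact mem_singleton_self 1
    refine (card_le_card h).trans ?_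
    simp
  | succ t ih =>
    have h : Dv m (t + 1) ⊆ Dv m t ∪
        ((Dv m t ×ˢ (m.primeFactors ×ˢ range L)).image (fun x => x.1 * x.2.1 ^ x.2.2)) := by
      intro n hn
      obtain ⟨h1, h2⟩ := mem_filter.1 hn
      have hn0 : 0 < n := Nat.pos_of_mem_divisors h1
      by_cases h3 : n.primeFactors.card ≤ t
      · exact mem_union_left _ (mem_filter.2 ⟨h1, h3⟩)
      · refine mem_union_right _ ?_
        have h4 : n.primeFactors.Nonempty := by
          rw [← card_pos]; omega
        obtain ⟨p, hp⟩ := h4
        have hpp := Nat.prime_of_mem_primeFactors hp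
        have hnm : n ∣ m := Nat.dvd_of_mem_divisors h1
        refine mem_image.2 ⟨(n / p ^ n.factorization p, (p, n.factorization p)), ?_, ?_⟩
        · refine mem_product.2 ⟨?_, mem_product.2 ⟨?_, ?_⟩⟩
          · refine mem_filter.2 ⟨Nat.mem_divisors.2
              ⟨(Nat.ordCompl_dvd n p).trans hnm, hm.ne'⟩, ?_⟩
            have h5 : (n / p ^ n.factorization p).primeFactors ⊆ n.primeFactors.erase p := by
              rw [← Nat.support_factorization, Nat.factorization_ordCompl]
              intro q hq
              rw [Finsupp.support_erase] at hq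
              exact hq
            have h6 := card_le_card h5
            rw [card_erase_of_mem hp] at h6
            show (n / p ^ n.factorization p).primeFactors.card ≤ t
            omega
          · exact Nat.primeFactors_mono hnm hm.ne' hp
          · refine mem_range.2 ?_
            have h5 : p ^ n.factorization p ≤ n := Nat.ordProj_le p hn0.ne'
            have h6 : 2 ^ n.factorization p ≤ p ^ n.factorization p :=
              Nat.pow_le_pow_left hpp.two_le _
            have h7 : n ≤ m := Nat.le_of_dvd hm hnm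
            exact (Nat.pow_lt_pow_iff_right (by norm_num : 1 < 2)).1
              ((h6.trans (h5.trans h7)).trans_lt hL)
        · show n / p ^ n.factorization p * p ^ n.factorization p = n
          rw [mul_comm]
          exact Nat.ordProj_mul_ordCompl_eq_self n p
    have hω : m.primeFactors.card ≤ L := by
      have := (two_pow_card_le hm).trans_lt hL
      exact ((Nat.pow_lt_pow_iff_right (by norm_num : 1 < 2)).1 this).le
    calc (Dv m (t + 1)).card ≤ (Dv m t).card + (Dv m t).card * (m.primeFactors.card * L) := by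
          refine (card_le_card h).trans ((card_union_le _ _).trans ?_)
          refine Nat.add_le_add_left (card_image_le.trans ?_) _
          rw [card_product, card_product, card_range]
      _ ≤ (Dv m t).card + (Dv m t).card * (L * L) :=
          Nat.add_le_add_left (Nat.mul_le_mul_left _ (Nat.mul_le_mul_right _ hω)) _
      _ = (Dv m t).card * (L * L + 1) := by ring
      _ ≤ ((L + 1) ^ 2) ^ t * (L + 1) ^ 2 := by
          refine Nat.mul_le_mul ih ?_
          nlinarith
      _ = ((L + 1) ^ 2) ^ (t + 1) := (pow_succ _ _).symm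

theorem two_pow_card_le_divisors {n : ℕ} (hn : 0 < n) :
    2 ^ n.primeFactors.card ≤ n.divisors.card := by
  rw [Nat.card_divisors hn.ne', ← prod_const]
  refine prod_le_prod' (fun p hp => ?_)
  have h := (Nat.prime_of_mem_primeFactors hp).factorization_pos_of_dvd hn.ne'
    (Nat.dvd_of_mem_primeFactors hp)
  show 2 ≤ n.factorization p + 1
  omega

theorem sum_divisors_card (X : ℕ) : ∑ n ∈ Ioc 0 X, n.divisors.card = ∑ d ∈ Ioc 0 X, X / d := by
  have h : ∀ n ∈ Ioc 0 X, n.divisors.card = ∑ d ∈ Ioc 0 X, if d ∣ n then 1 else 0 := by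
    intro n hn
    obtain ⟨h1, h2⟩ := mem_Ioc.1 hn
    rw [← card_filter]
    congr 1
    ext d
    simp only [Nat.mem_divisors, mem_filter, mem_Ioc]
    constructor
    · rintro ⟨h3, h4⟩
      exact ⟨⟨Nat.pos_of_dvd_of_pos h3 h1, (Nat.le_of_dvd h1 h3).trans h2⟩, h3⟩
    · rintro ⟨_, h3⟩
      exact ⟨h3, h1.ne'⟩
  rw [sum_congr rfl h, sum_comm]
  refine sum_congr rfl fun d _ => ?_
  rw [← card_filter, Nat.Ioc_filter_dvd_card_eq_div]

theorem sum_divisors_card_le (X : ℕ) :
    (∑ n ∈ Ioc 0 X, (n.divisors.card : ℝ)) ≤ X * (1 + Real.log X) := by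
  have h1 : (∑ n ∈ Ioc 0 X, (n.divisors.card : ℝ)) = ∑ d ∈ Ioc 0 X, ((X / d : ℕ) : ℝ) := by
    exact_mod_cast sum_divisors_card X
  rw [h1]
  have h2 := harmonic_le_one_add_log X
  rw [harmonic_eq_sum_Icc] at h2
  push_cast at h2
  calc ∑ d ∈ Ioc 0 X, ((X / d : ℕ) : ℝ) ≤ ∑ d ∈ Ioc 0 X, (X : ℝ) * (d : ℝ)⁻¹ := by
        refine sum_le_sum fun d _ => ?_
        rw [← div_eq_mul_inv]
        exact Nat.cast_div_le
    _ = X * ∑ d ∈ Icc 1 X, (d : ℝ)⁻¹ := by
        rw [mul_sum]
        rfl
    _ ≤ X * (1 + Real.log X) := mul_le_mul_of_nonneg_left h2 (Nat.cast_nonneg _)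

/-- few integers up to `X` have many prime factors -/
theorem many_factors (X t : ℕ) :
    (((Ioc 0 X).filter (fun n => t < n.primeFactors.card)).card : ℝ) * 2 ^ (t + 1) ≤
      X * (1 + Real.log X) := by
  refine le_trans ?_ (sum_divisors_card_le X)
  calc (((Ioc 0 X).filter (fun n => t < n.primeFactors.card)).card : ℝ) * 2 ^ (t + 1)
      = ∑ _n ∈ (Ioc 0 X).filter (fun n => t < n.primeFactors.card), (2 : ℝ) ^ (t + 1) := by
        rw [sum_const, nsmul_eq_mul]
    _ ≤ ∑ n ∈ (Ioc 0 X).filter (fun n => t < n.primeFactors.card), (n.divisors.card : ℝ) := by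
        refine sum_le_sum fun n hn => ?_
        obtain ⟨h1, h2⟩ := mem_filter.1 hn
        have h3 := two_pow_card_le_divisors (mem_Ioc.1 h1).1
        have h4 : 2 ^ (t + 1) ≤ 2 ^ n.primeFactors.card :=
          Nat.pow_le_pow_right (by norm_num) h2
        exact_mod_cast h4.trans h3
    _ ≤ ∑ n ∈ Ioc 0 X, (n.divisors.card : ℝ) :=
        sum_le_sum_of_subset_of_nonneg (filter_subset _ _) (fun _ _ _ => Nat.cast_nonneg _)

end Pool.Agent.PiSq
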