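import Pool.Agent.Work.MP_e60d4a_nt.PrimeCase
import Pool.Agent.Work.MP_e60d4a_nt.Divs

/-!
# Almost all moduli
-/

set_option autoImplicit false

namespace Pool.Agent.PiSq

open Finset Filter

theorem omega_divs (N m t L : ℕ) (hm : 0 < m) (hmN : m < N ^ 3) (hL : N ^ 3 < 2 ^ L) :
    (((Ioc N (2 * N)).filter (fun n => n.primeFactors.card ≤ t)).filter (fun n => n ∣ m)).card ≤
      ((L + 1) ^ 2) ^ t := by
  refine le_trans (card_le_card ?_) (Dv_card hm (hmN.trans hL) t)
  intro n hn
  obtain ⟨h1, h2⟩ := mem_filter.1 hn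
  obtain ⟨_, h4⟩ := mem_filter.1 h1
  exact mem_filter.2 ⟨Nat.mem_divisors.2 ⟨h2, hm.ne'⟩, h4⟩

theorem log_L {N : ℕ} (hN : 10 ≤ Real.log N) (hN0 : 0 < N) :
    ((Nat.log 2 (N ^ 3) + 1 : ℕ) : ℝ) + 1 ≤ 6 * Real.log N := by
  have h1 : 2 ^ Nat.log 2 (N ^ 3) ≤ N ^ 3 := Nat.pow_log_le_self 2 (pow_pos hN0 3).ne'
  have h2 : ((2 : ℝ) ^ Nat.log 2 (N ^ 3)) ≤ (N : ℝ) ^ 3 := by exact_mod_cast h1
  have h3 := Real.log_le_log (by positivity) h2
  rw [Real.log_pow, Real.log_pow] at h3
  have h4 := Real.log_two_gt_d9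
  push_cast at h3 ⊢
  have h5 : (0 : ℝ) ≤ (Nat.log 2 (N ^ 3) : ℝ) := Nat.cast_nonneg _
  nlinarith

theorem omega_case : ∀ᶠ N : ℕ in atTop,
    (((Ioc N (2 * N)).filter
      (fun n => (R n : ℝ) < n * Real.exp (-10 * Real.log (Real.log n) ^ 2))).card : ℝ) ≤
      4 * (N / Real.log N) := by
  have hlt : Tendsto (fun N : ℕ => Real.log N) atTop atTop :=
    Real.tendsto_log_atTop.comp tendsto_natCast_atTop_atTop
  have hllt : Tendsto (fun N : ℕ => Real.log (Real.log N)) atTop atTop :=
    Real.tendsto_log_atTop.comp hlt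
  filter_upwards [card_V_lower, top_sq_lt, hlt.eventually_ge_atTop 16,
    hllt.eventually_ge_atTop 4, eventually_ge_atTop 3] with N h1 h2 h3 h4 h5
  have hN : (3 : ℝ) ≤ N := by exact_mod_cast h5
  have hN0 : (0 : ℝ) < N := by linarith
  have hlog : 0 < Real.log N := by linarith
  obtain ⟨l, hl⟩ : ∃ l : ℝ, l = Real.log (Real.log N) := ⟨_, rfl⟩
  rw [← hl] at h4
  have hel : Real.exp l = Real.log N := by rw [hl, Real.exp_log hlog]
  obtain ⟨t, ht⟩ : ∃ t : ℕ, t = ⌊3 * l⌋₊ := ⟨_, rfl⟩
  obtain ⟨L, hL⟩ : ∃ L : ℕ, L = Nat.log 2 (N ^ 3) + 1 := ⟨_, rfl⟩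
  have hL1 : N ^ 3 < 2 ^ L := by
    rw [hL]
    exact Nat.lt_pow_succ_log_self (by norm_num) _
  have hL2 : (L : ℝ) + 1 ≤ 6 * Real.log N := by
    rw [hL]
    exact log_L (by linarith) (by omega)
  obtain ⟨T, hT⟩ : ∃ T : ℕ, T = ((L + 1) ^ 2) ^ t := ⟨_, rfl⟩
  have hT0 : 0 < T := by rw [hT]; positivity
  have hT0' : (0 : ℝ) < T := by exact_mod_cast hT0
  have ht1 : (t : ℝ) ≤ 3 * l := by
    rw [ht]; exact Nat.floor_le (by linarith)
  have ht2 : 3 * l < t + 1 := by
    rw [ht]; exact Nat.lt_floor_add_one _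
  -- the bound for `T`
  have hlog6 : Real.log 6 ≤ 2 := by
    have h6 : (6 : ℝ) ≤ 2 ^ (13 / 5 : ℝ) := by
      have h7 : ((2 : ℝ) ^ (13 / 5 : ℝ)) ^ (5 : ℕ) = 2 ^ 13 := by
        rw [← Real.rpow_natCast ((2 : ℝ) ^ (13 / 5 : ℝ)) 5, ← Real.rpow_mul (by norm_num)]
        norm_num
      by_contra hc
      rw [not_le] at hc
      have h8 := pow_lt_pow_left₀ hc (by positivity) (by norm_num : (5 : ℕ) ≠ 0)
      rw [h7] at h8
      norm_num at h8
    have h7 := Real.log_le_log (by norm_num) h6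
    rw [Real.log_rpow (by norm_num)] at h7
    have := Real.log_two_lt_d9
    linarith
  have hTlog : Real.log T ≤ 6 * l ^ 2 + 12 * l := by
    rw [hT]
    push_cast
    rw [Real.log_pow, Real.log_pow]
    have h6 : Real.log ((L : ℝ) + 1) ≤ Real.log 6 + l := by
      rw [hl, ← Real.log_mul (by norm_num) hlog.ne']
      exact Real.log_le_log (by positivity) hL2
    have h7 : 0 ≤ Real.log ((L : ℝ) + 1) :=
      Real.log_nonneg (by linarith [(Nat.cast_nonneg L : (0 : ℝ) ≤ L)])
    push_cast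
    calc (t : ℝ) * (2 * Real.log ((L : ℝ) + 1)) ≤ (3 * l) * (2 * (2 + l)) := by
          refine mul_le_mul ht1 (by linarith) (by linarith) (by linarith)
      _ = 6 * l ^ 2 + 12 * l := by ring
  have hTexp : (T : ℝ) ≤ Real.exp (6 * l ^ 2 + 12 * l) := by
    rw [← Real.log_le_iff_le_exp hT0']
    exact hTlog
  obtain ⟨ρ, hρ⟩ : ∃ ρ : ℝ, ρ = N / (2 * T * Real.log N) := ⟨_, rfl⟩
  have hρ0 : 0 < ρ := by rw [hρ]; positivity
  have hT1 : (1 : ℝ) ≤ T := by exact_mod_cast hT0
  have h6 : 2 * ρ ≤ ((V (top N)).card : ℝ) := by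
    refine le_trans ?_ h1
    rw [hρ, show 2 * ((N : ℝ) / (2 * T * Real.log N)) = N / (T * Real.log N) by
      field_simp]
    refine div_le_div_of_nonneg_left hN0.le (by norm_num) ?_
    nlinarith
  have h7 := bad_card (V (top N)) ((Ioc N (2 * N)).filter (fun n => n.primeFactors.card ≤ t))
    (top N ^ 2) T (fun v hv => V_le hv)
    (fun m hm hm2 => by
      rw [hT]
      exact omega_divs N m t L hm (hm2.trans_lt h2) hL1) hρ0 h6
  have h8 : 2 * ρ * T = N / Real.log N := by
    rw [hρ]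
    field_simp
  rw [h8] at h7
  -- integers with many prime factors
  have h9 := many_factors (2 * N) t
  have h10 : (Real.log N) ^ 2 ≤ (2 : ℝ) ^ (t + 1) := by
    have h11 : Real.log ((2 : ℝ) ^ (t + 1)) = (t + 1) * Real.log 2 := by
      rw [Real.log_pow]; push_cast; ring
    rw [← hel, ← Real.exp_nat_mul, ← Real.le_log_iff_exp_le (by positivity), h11]
    have := Real.log_two_gt_d9
    push_cast
    nlinarith
  have h11 : (((Ioc 0 (2 * N)).filter (fun n => t < n.primeFactors.card)).card : ℝ) ≤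
      3 * (N / Real.log N) := by
    have h12 : (((Ioc 0 (2 * N)).filter (fun n => t < n.primeFactors.card)).card : ℝ) *
        (Real.log N) ^ 2 ≤ 3 * N * Real.log N := by
      calc (((Ioc 0 (2 * N)).filter (fun n => t < n.primeFactors.card)).card : ℝ) *
          (Real.log N) ^ 2 ≤
          (((Ioc 0 (2 * N)).filter (fun n => t < n.primeFactors.card)).card : ℝ) *
            2 ^ (t + 1) := mul_le_mul_of_nonneg_left h10 (Nat.cast_nonneg _)
        _ ≤ _ := h9
        _ ≤ 3 * N * Real.log N := by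
          push_cast
          rw [Real.log_mul (by norm_num) hN0.ne']
          have := Real.log_two_lt_d9
          nlinarith
    have h13 : 3 * (N / Real.log N) = 3 * N * Real.log N / (Real.log N) ^ 2 := by
      field_simp
    rw [h13, le_div_iff₀ (by positivity)]
    exact h12
  have h12 : ((Ioc N (2 * N)).filter
      (fun n => (R n : ℝ) < n * Real.exp (-10 * Real.log (Real.log n) ^ 2))) ⊆
      (((Ioc N (2 * N)).filter (fun n => n.primeFactors.card ≤ t)).filter
        (fun n => (cls (V (top N)) n : ℝ) < ρ)) ∪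
      ((Ioc 0 (2 * N)).filter (fun n => t < n.primeFactors.card)) := by
    intro n hn
    obtain ⟨hn1, hn2⟩ := mem_filter.1 hn
    obtain ⟨hn3, hn4⟩ := mem_Ioc.1 hn1
    by_cases hn5 : n.primeFactors.card ≤ t
    · refine mem_union_left _ (mem_filter.2 ⟨mem_filter.2 ⟨hn1, hn5⟩, ?_⟩)
      have h13 : (cls (V (top N)) n : ℝ) ≤ R n := by exact_mod_cast cls_le_R hn3.le
      refine h13.trans_lt (hn2.trans_le ?_)
      have h14 : (N : ℝ) ≤ n := by exact_mod_cast hn3.le
      have h15 : (n : ℝ) ≤ 2 * N := by exact_mod_cast hn4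
      have h16 : l ≤ Real.log (Real.log n) := by
        rw [hl]
        exact Real.log_le_log hlog (Real.log_le_log hN0 h14)
      have h17 : Real.exp (-10 * Real.log (Real.log n) ^ 2) ≤ Real.exp (-10 * l ^ 2) := by
        refine Real.exp_le_exp.2 ?_
        nlinarith
      calc (n : ℝ) * Real.exp (-10 * Real.log (Real.log n) ^ 2)
          ≤ 2 * N * Real.exp (-10 * l ^ 2) :=
            mul_le_mul h15 h17 (Real.exp_pos _).le (by linarith)
        _ ≤ ρ := by
          rw [hρ, le_div_iff₀ (by positivity)]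
          have h18 : 4 * (T : ℝ) * Real.log N ≤ Real.exp (10 * l ^ 2) := by
            have h19 : (4 : ℝ) ≤ Real.exp 2 := by
              have := log_four_lt
              rw [← Real.log_le_iff_le_exp (by norm_num)]
              exact this.le
            calc 4 * (T : ℝ) * Real.log N ≤
                Real.exp 2 * Real.exp (6 * l ^ 2 + 12 * l) * Real.exp l := by
                  rw [hel]
                  refine mul_le_mul_of_nonneg_right ?_ hlog.le
                  exact mul_le_mul h19 hTexp hT0'.le (Real.exp_pos _).le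
              _ = Real.exp (2 + (6 * l ^ 2 + 12 * l) + l) := by
                  rw [← Real.exp_add, ← Real.exp_add]
              _ ≤ Real.exp (10 * l ^ 2) := by
                  refine Real.exp_le_exp.2 ?_
                  nlinarith
          have h19 : Real.exp (-10 * l ^ 2) * Real.exp (10 * l ^ 2) = 1 := by
            rw [← Real.exp_add]
            rw [show -10 * l ^ 2 + 10 * l ^ 2 = 0 by ring, Real.exp_zero]
          calc 2 * (N : ℝ) * Real.exp (-10 * l ^ 2) * (2 * T * Real.log N)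
              = N * (Real.exp (-10 * l ^ 2) * (4 * (T : ℝ) * Real.log N)) := by ring
            _ ≤ N * (Real.exp (-10 * l ^ 2) * Real.exp (10 * l ^ 2)) := by
                refine mul_le_mul_of_nonneg_left ?_ hN0.le
                exact mul_le_mul_of_nonneg_left h18 (Real.exp_pos _).le
            _ = N := by rw [h19, mul_one]
    · refine mem_union_right _ (mem_filter.2 ⟨mem_Ioc.2 ⟨by omega, hn4⟩, ?_⟩)
      omega
  have h13 := (card_le_card h12).trans (card_union_le _ _)
  have h14 : (((Ioc N (2 * N)).filter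
      (fun n => (R n : ℝ) < n * Real.exp (-10 * Real.log (Real.log n) ^ 2))).card : ℝ) ≤
      ((((Ioc N (2 * N)).filter (fun n => n.primeFactors.card ≤ t)).filter
        (fun n => (cls (V (top N)) n : ℝ) < ρ)).card : ℝ) +
      (((Ioc 0 (2 * N)).filter (fun n => t < n.primeFactors.card)).card : ℝ) := by
    exact_mod_cast h13
  linarith

end Pool.Agent.PiSq
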