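import Pool.Agent.Work.MP_e60d4a_nt.Cheb
import Pool.Agent.Work.MP_e60d4a_nt.Defs

/-!
# Prime moduli
-/

set_option autoImplicit false

namespace Pool.Agent.PiSq

open Finset Filter

theorem cls_le_R {N n : ℕ} (h : N ≤ n) : cls (V (top N)) n ≤ R n :=
  cls_mono (V_mono (top_mono h)) n

theorem prime_divs (N m : ℕ) (hm : 0 < m) (hmN : m < N ^ 3) :
    (((Ioc N (2 * N)).filter Nat.Prime).filter (fun n => n ∣ m)).card ≤ 2 := by
  by_contra hcon
  rw [not_le, Finset.two_lt_card] at hcon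
  obtain ⟨a, ha, b, hb, c, hc, hab, hac, hbc⟩ := hcon
  simp only [mem_filter, mem_Ioc] at ha hb hc
  obtain ⟨⟨⟨ha1, _⟩, ha2⟩, ha3⟩ := ha
  obtain ⟨⟨⟨hb1, _⟩, hb2⟩, hb3⟩ := hb
  obtain ⟨⟨⟨hc1, _⟩, hc2⟩, hc3⟩ := hc
  have h1 : a * b ∣ m := ((Nat.coprime_primes ha2 hb2).2 hab).mul_dvd_of_dvd_of_dvd ha3 hb3
  have h2 : Nat.Coprime (a * b) c :=
    Nat.Coprime.mul_left ((Nat.coprime_primes ha2 hc2).2 hac) ((Nat.coprime_primes hb2 hc2).2 hbc)
  have h3 : a * b * c ∣ m := h2.mul_dvd_of_dvd_of_dvd h1 hc3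
  have h4 := Nat.le_of_dvd hm h3
  have h5 : N * N * N ≤ a * b * c := Nat.mul_le_mul (Nat.mul_le_mul ha1.le hb1.le) hc1.le
  have h6 : N ^ 3 = N * N * N := by ring
  omega

theorem prime_case (δ : ℝ) (hδ : 0 < δ) : ∀ᶠ N : ℕ in atTop,
    (((Ioc N (2 * N)).filter
      (fun q => q.Prime ∧ (R q : ℝ) < δ * (q / Real.log q))).card : ℝ) ≤
      8 * δ * (N / Real.log N) := by
  have hl : ∀ᶠ N : ℕ in atTop, 64 * δ ≤ Real.log N :=
    (Real.tendsto_log_atTop.comp tendsto_natCast_atTop_atTop).eventually_ge_atTop _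
  filter_upwards [card_V_lower, top_sq_lt, hl, eventually_ge_atTop 3] with N h1 h2 h3 h4
  have hN : (3 : ℝ) ≤ N := by exact_mod_cast h4
  have hN0 : (0 : ℝ) < N := by linarith
  have hlog : 0 < Real.log N := Real.log_pos (by linarith)
  obtain ⟨ρ, hρ⟩ : ∃ ρ : ℝ, ρ = 2 * δ * (N / Real.log N) := ⟨_, rfl⟩
  have hρ0 : 0 < ρ := by rw [hρ]; positivity
  have h5 : 2 * ρ ≤ ((V (top N)).card : ℝ) := by
    refine le_trans ?_ h1
    rw [hρ, show 2 * (2 * δ * (N / Real.log N)) = 4 * δ * N / Real.log N by ring,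
      div_le_div_iff₀ hlog (by norm_num)]
    nlinarith
  have h6 := bad_card (V (top N)) ((Ioc N (2 * N)).filter Nat.Prime) (top N ^ 2) 2
    (fun v hv => V_le hv) (fun m hm hm2 => prime_divs N m hm (hm2.trans_lt h2)) hρ0 h5
  have h7 : ((Ioc N (2 * N)).filter
      (fun q => q.Prime ∧ (R q : ℝ) < δ * (q / Real.log q))) ⊆
      (((Ioc N (2 * N)).filter Nat.Prime).filter
        (fun n => (cls (V (top N)) n : ℝ) < ρ)) := by
    intro q hq
    obtain ⟨hq1, hq2, hq3⟩ := mem_filter.1 hq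
    obtain ⟨hq4, hq5⟩ := mem_Ioc.1 hq1
    refine mem_filter.2 ⟨mem_filter.2 ⟨hq1, hq2⟩, ?_⟩
    have h8 : (cls (V (top N)) q : ℝ) ≤ R q := by exact_mod_cast cls_le_R hq4.le
    refine h8.trans_lt (hq3.trans_le ?_)
    rw [hρ, mul_comm (2 : ℝ) δ, mul_assoc]
    refine mul_le_mul_of_nonneg_left ?_ hδ.le
    have h9 : (N : ℝ) ≤ q := by exact_mod_cast hq4.le
    have h10 : (q : ℝ) ≤ 2 * N := by exact_mod_cast hq5
    calc (q : ℝ) / Real.log q ≤ q / Real.log N :=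
          div_le_div_of_nonneg_left (by linarith) hlog (Real.log_le_log hN0 h9)
      _ ≤ 2 * N / Real.log N := div_le_div_of_nonneg_right h10 hlog.le
      _ = 2 * (N / Real.log N) := by ring
  have h8 := card_le_card h7
  calc (((Ioc N (2 * N)).filter
      (fun q => q.Prime ∧ (R q : ℝ) < δ * (q / Real.log q))).card : ℝ)
      ≤ ((((Ioc N (2 * N)).filter Nat.Prime).filter
        (fun n => (cls (V (top N)) n : ℝ) < ρ)).card : ℝ) := by exact_mod_cast h8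
    _ ≤ 2 * ρ * (2 : ℕ) := h6
    _ = 8 * δ * (N / Real.log N) := by rw [hρ]; push_cast; ring

end Pool.Agent.PiSq
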